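import Pool.Agent.H7.KQ.Stmts

/-!
# Row AMG
-/

set_option autoImplicit false

open Finset

namespace Pool.KQ

/-- The inequality between the means. -/
lemma amgm_pow (n : ℕ) (x : Fin n → ℝ) (hx : ∀ i, 0 ≤ x i) :
    ∏ i, x i ≤ ((∑ i, x i) / n) ^ n := by
  rcases Nat.eq_zero_or_pos n with rfl | hn
  · simp
  have hn' : (0 : ℝ) < n := by exact_mod_cast hn
  have h1 := Real.geom_mean_le_arith_mean_weighted univ (fun _ : Fin n => (1 : ℝ) / n) x
    (fun i _ => by positivity) (by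
      rw [sum_const, card_univ, Fintype.card_fin, nsmul_eq_mul]
      field_simp) (fun i _ => hx i)
  have h2 : ∏ i, x i = (∏ i, x i ^ ((1 : ℝ) / n)) ^ n := by
    rw [← prod_pow]
    apply prod_congr rfl
    intro i _
    rw [← Real.rpow_natCast, ← Real.rpow_mul (hx i), one_div_mul_cancel hn'.ne', Real.rpow_one]
  have h3 : (∑ i, x i) / n = ∑ i, (1 : ℝ) / n * x i := by
    rw [← mul_sum]
    ring
  rw [h2, h3]
  exact pow_le_pow_left₀ (prod_nonneg (fun i _ => Real.rpow_nonneg (hx i) _)) h1 n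

theorem amg : AMGStmt := by
  intro n x S hx hS i j hij
  classical
  have hj : j ∈ univ.erase i := mem_erase.2 ⟨hij.symm, mem_univ j⟩
  obtain ⟨Q, hQ⟩ : ∃ Q, Q = ∏ k ∈ (univ.erase i).erase j, x k := ⟨_, rfl⟩
  obtain ⟨R, hR⟩ : ∃ R, R = ∑ k ∈ (univ.erase i).erase j, x k := ⟨_, rfl⟩
  have hQ0 : 0 ≤ Q := hQ ▸ prod_nonneg (fun k _ => hx k)
  have hR0 : 0 ≤ R := hR ▸ sum_nonneg (fun k _ => hx k)
  have hP : ∏ k, x k = x i * (x j * Q) := by
    rw [← mul_prod_erase univ x (mem_univ i), ← mul_prod_erase (univ.erase i) x hj, hQ]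
  have hT : ∑ k, x k = x i + (x j + R) := by
    rw [← add_sum_erase univ x (mem_univ i), ← add_sum_erase (univ.erase i) x hj, hR]
  obtain ⟨m, hm⟩ : ∃ m, m = (x i + x j) / 2 := ⟨_, rfl⟩
  have hxi := hx i
  have hxj := hx j
  have hm0 : 0 ≤ m := by rw [hm]; positivity
  have hy := amgm_pow n (fun k => if k = i ∨ k = j then m else x k) (by
    intro k
    split_ifs
    · exact hm0
    · exact hx k)
  have hP2 : ∏ k, (if k = i ∨ k = j then m else x k) = m * (m * Q) := by
    rw [← mul_prod_erase univ _ (mem_univ i), ← mul_prod_erase (univ.erase i) _ hj, hQ,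
      if_pos (Or.inl rfl), if_pos (Or.inr rfl)]
    congr 2
    apply prod_congr rfl
    intro k hk
    rw [mem_erase, mem_erase] at hk
    rw [if_neg (by tauto)]
  have hT2 : ∑ k, (if k = i ∨ k = j then m else x k) = m + (m + R) := by
    rw [← add_sum_erase univ _ (mem_univ i), ← add_sum_erase (univ.erase i) _ hj, hR,
      if_pos (Or.inl rfl), if_pos (Or.inr rfl)]
    congr 2
    apply sum_congr rfl
    intro k hk
    rw [mem_erase, mem_erase] at hk
    rw [if_neg (by tauto)]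
  rw [hP2, hT2] at hy
  have h1 : (m + (m + R)) ≤ S := by
    rw [hT] at hS
    rw [hm]
    linarith
  have h2 : ((m + (m + R)) / n) ^ n ≤ (S / n) ^ n := by
    apply pow_le_pow_left₀ (by positivity)
    exact div_le_div_of_nonneg_right h1 (Nat.cast_nonneg n)
  have h3 : m * (m * Q) ≤ (S / n) ^ n := hy.trans h2
  have hmS : 2 * m ≤ S := by linarith
  have hd : (x i - x j) ^ 2 ≤ S ^ 2 := by
    apply sq_le_sq'
    · linarith
    · linarith
  have h4 : (2 * m) ^ 2 ≤ S ^ 2 := pow_le_pow_left₀ (by positivity) hmS 2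
  rw [hP]
  have h5 : x i * (x j * Q) * S ^ 2 ≤ m * (m * Q) * (S ^ 2 - (x i - x j) ^ 2) := by
    have h6 : m * (m * Q) * (S ^ 2 - (x i - x j) ^ 2) - x i * (x j * Q) * S ^ 2
        = Q * (x i - x j) ^ 2 * (S ^ 2 - (2 * m) ^ 2) / 4 := by
      rw [hm]
      ring
    have h7 : 0 ≤ Q * (x i - x j) ^ 2 * (S ^ 2 - (2 * m) ^ 2) / 4 := by
      apply div_nonneg _ (by norm_num)
      exact mul_nonneg (mul_nonneg hQ0 (sq_nonneg _)) (by linarith)
    linarith
  exact h5.trans (mul_le_mul_of_nonneg_right h3 (by linarith))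

end Pool.KQ
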