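import Pool.Agent.H7.KQ.Stmts

/-!
# Row WST
-/

set_option autoImplicit false

open Finset

namespace Pool.KQ

open Pool.Agent.H23.KT Pool.Agent.H46.KW

lemma wst_arith {q n M r y : ℕ} (hr : r < q) (h : y + q * n = q * M + r) : r ≤ y := by
  by_contra hcon
  push Not at hcon
  rcases Nat.lt_or_ge M n with h1 | h1
  · have h2 : q * (M + 1) ≤ q * n := Nat.mul_le_mul_left _ h1
    rw [Nat.mul_add, Nat.mul_one] at h2
    omega
  · have h2 : q * n ≤ q * M := Nat.mul_le_mul_left _ h1
    omega

lemma min_sum_le {ι : Type*} (s : Finset ι) (r : ℝ) (w : ι → ℝ) (hr : 0 ≤ r)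
    (hw : ∀ i ∈ s, 0 ≤ w i) : min r (∑ i ∈ s, w i) ≤ ∑ i ∈ s, min r (w i) := by
  classical
  induction s using Finset.induction_on with
  | empty => simp [hr]
  | insert i s hi ih =>
    rw [sum_insert hi, sum_insert hi]
    have h1 := ih (fun j hj => hw j (mem_insert_of_mem hj))
    have h2 := hw i (mem_insert_self _ _)
    have h3 : 0 ≤ ∑ j ∈ s, w j := sum_nonneg (fun j hj => hw j (mem_insert_of_mem hj))
    refine le_trans ?_ (add_le_add_right h1 _)
    rcases le_total r (w i) with h4 | h4
    · rw [min_eq_left h4]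
      have h5 : 0 ≤ min r (∑ j ∈ s, w j) := le_min hr h3
      linarith [min_le_left r (w i + ∑ j ∈ s, w j)]
    · rw [min_eq_right h4]
      rcases le_total r (∑ j ∈ s, w j) with h5 | h5
      · rw [min_eq_left h5]
        linarith [min_le_left r (w i + ∑ j ∈ s, w j)]
      · rw [min_eq_right h5]
        exact min_le_right _ _

theorem wst : WSTStmt := by
  intro V _ _ G p r a hr hCB hdeg K hK
  classical
  rw [mem_clq] at hK
  obtain ⟨-, hKc, hKq⟩ := hK
  -- at most `p + 3` neighbours
  have hi : ∀ z, (nb G K z).card ≤ p + 3 := by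
    intro z
    by_contra hcon
    have h1 : nb G K z ⊆ K := nb_subset G K z
    have h2 : (nb G K z).card ≤ K.card := card_le_card h1
    have h3 : (nb G K z).card = p + 4 := by omega
    have h4 : nb G K z = K := eq_of_subset_of_card_le h1 (by omega)
    have hall : ∀ y ∈ K, G.Adj z y := by
      intro y hy
      rw [← h4] at hy
      exact ((mem_nb G).1 hy).2
    have hz : z ∉ K := fun hz => G.loopless.irrefl z (hall z hz)
    have h5 := hCB (insert z K) (subset_univ _) (by
      rw [coe_insert, SimpleGraph.isClique_insert]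
      exact ⟨hKq, fun y hy _ => hall y (mem_coe.1 hy)⟩)
    rw [card_insert_of_notMem hz] at h5
    omega
  have hsw : ∑ v ∈ K, sw G p (nb G univ v) (K.erase v)
      = ∑ z : V, ((nb G K z).card : ℝ) * gw p ((nb G K z).card - 1) := by
    unfold sw
    have h1 : ∀ v ∈ K, ∑ z ∈ nb G univ v, gw p (nb G (K.erase v) z).card
        = ∑ z : V, if G.Adj v z then gw p ((nb G K z).card - 1) else 0 := by
      intro v hv
      rw [← sum_filter]
      have h2 : nb G univ v = univ.filter (fun z => G.Adj v z) := by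
        ext z
        simp only [mem_nb, mem_filter]
      rw [h2]
      apply sum_congr rfl
      intro z hz
      have hadj : G.Adj v z := (mem_filter.1 hz).2
      have h3 : nb G (K.erase v) z = (nb G K z).erase v := by
        ext y
        simp only [mem_nb, mem_erase, and_assoc]
      rw [h3, card_erase_of_mem ((mem_nb G).2 ⟨hv, hadj.symm⟩)]
    rw [sum_congr rfl h1, sum_comm]
    apply sum_congr rfl
    intro z _
    rw [← sum_filter, sum_const, nsmul_eq_mul]
    have h2 : K.filter (fun v => G.Adj v z) = nb G K z := by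
      ext v
      simp only [mem_filter, mem_nb]
      rw [G.adj_comm]
    rw [h2]
  have hdsum : ∑ v ∈ K, (nb G univ v).card = ∑ z : V, (nb G K z).card := by
    have h1 : ∀ v ∈ K, (nb G univ v).card = ∑ z : V, if G.Adj v z then 1 else 0 := by
      intro v _
      rw [← card_filter]
      congr 1
    rw [sum_congr rfl h1, sum_comm]
    apply sum_congr rfl
    intro z _
    rw [← card_filter]
    have h2 : K.filter (fun v => G.Adj v z) = nb G K z := by
      ext v
      simp only [mem_filter, mem_nb]
      rw [G.adj_comm]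
    rw [h2]
  obtain ⟨n0, hn0⟩ : ∃ n0, n0 = ∑ z : V, (if (nb G K z).card = p + 3 then 1 else 0 : ℕ) := ⟨_, rfl⟩
  obtain ⟨n1, hn1⟩ : ∃ n1, n1 = ∑ z : V, (if (nb G K z).card = p + 2 then 1 else 0 : ℕ) := ⟨_, rfl⟩
  obtain ⟨s, hs⟩ : ∃ s, s = ∑ z : V, (if (nb G K z).card ≤ p + 1 then (nb G K z).card else 0 : ℕ) :=
    ⟨_, rfl⟩
  have hA : ∑ z : V, (nb G K z).card = (p + 3) * n0 + (p + 2) * n1 + s := by
    rw [hn0, hn1, hs, mul_sum, mul_sum, ← sum_add_distrib, ← sum_add_distrib]
    apply sum_congr rfl
    intro z _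
    have := hi z
    rcases Nat.lt_or_ge (nb G K z).card (p + 2) with h1 | h1
    · rw [if_neg (by omega), if_neg (by omega), if_pos (by omega)]
      omega
    · rcases Nat.lt_or_ge (nb G K z).card (p + 3) with h2 | h2
      · rw [if_neg (by omega), if_pos (by omega), if_neg (by omega)]
        omega
      · rw [if_pos (by omega), if_neg (by omega), if_neg (by omega)]
        omega
  have hB : ∑ z : V, ((nb G K z).card : ℝ) * gw p ((nb G K z).card - 1)
      = gam p * ((p : ℝ) + 2) * n1 + s := by
    rw [hn1, hs]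
    push_cast
    rw [mul_sum, ← sum_add_distrib]
    apply sum_congr rfl
    intro z _
    have := hi z
    unfold gw
    rcases Nat.lt_or_ge (nb G K z).card (p + 2) with h1 | h1
    · rw [if_neg (by omega), if_neg (by omega), if_neg (by omega), if_pos (by omega)]
      ring
    · rcases Nat.lt_or_ge (nb G K z).card (p + 3) with h2 | h2
      · rw [if_neg (by omega), if_pos (by omega), if_pos (by omega), if_neg (by omega)]
        have h3 : (nb G K z).card = p + 2 := by omega
        rw [h3]
        push_cast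
        ring
      · rw [if_pos (by omega), if_neg (by omega), if_neg (by omega)]
        ring
  -- the integer `x`
  have hle : ∑ v ∈ K, (nb G univ v).card ≤ (p + 4) * ((p + 3) * a + r) := by
    have h1 := sum_le_card_nsmul K (fun v => (nb G univ v).card) _ (fun v _ => hdeg v)
    rw [hKc, smul_eq_mul] at h1
    exact h1
  obtain ⟨x, hx⟩ : ∃ x, (p + 4) * ((p + 3) * a + r) = ∑ v ∈ K, (nb G univ v).card + x :=
    ⟨_, (Nat.add_sub_cancel' hle).symm⟩
  have hx2 : x + s + (p + 3) * n0 + (p + 2) * n1 = (p + 3) * ((p + 4) * a + r) + r := by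
    have h1 : (p + 4) * ((p + 3) * a + r) = (p + 3) * ((p + 4) * a + r) + r := by ring
    rw [hdsum, hA] at hx
    omega
  have hT : ∑ v ∈ K, ((((p + 3) * a + r : ℕ) : ℝ) - (nb G univ v).card
      + sw G p (nb G univ v) (K.erase v)) = x + s + gam p * ((p : ℝ) + 2) * n1 := by
    rw [sum_add_distrib, sum_sub_distrib, hsw, hB, sum_const, hKc, nsmul_eq_mul, ← Nat.cast_sum]
    have h1 : (((p + 4 : ℕ) : ℝ)) * (((p + 3) * a + r : ℕ) : ℝ)
        = ((∑ v ∈ K, (nb G univ v).card : ℕ) : ℝ) + x := by
      exact_mod_cast hx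
    rw [h1]
    ring
  have hg : gam p * ((p : ℝ) + 2) = ((p : ℝ) + 1) / 2 := by
    unfold gam
    have : (p : ℝ) + 2 ≠ 0 := by positivity
    field_simp
  have hTr : (r : ℝ) ≤ x + s + gam p * ((p : ℝ) + 2) * n1 := by
    rw [hg]
    rcases Nat.lt_or_ge n1 2 with h1 | h1
    · have h2 : r ≤ x + s := by
        interval_cases n1
        · exact wst_arith (q := p + 3) (n := n0) (M := (p + 4) * a + r) (by omega) (by omega)
        · have h3 : r + 1 ≤ x + s :=
            wst_arith (q := p + 3) (n := n0 + 1) (M := (p + 4) * a + r) (by omega)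
              (by rw [Nat.mul_add]; omega)
          omega
      have h3 : (r : ℝ) ≤ x + s := by exact_mod_cast h2
      have h4 : 0 ≤ ((p : ℝ) + 1) / 2 * n1 := by positivity
      linarith
    · have h2 : ((p : ℝ) + 1) / 2 * 2 ≤ ((p : ℝ) + 1) / 2 * n1 := by
        apply mul_le_mul_of_nonneg_left _ (by positivity)
        exact_mod_cast h1
      have h3 : (r : ℝ) ≤ (p : ℝ) + 1 := by exact_mod_cast hr
      have h4 : (0 : ℝ) ≤ x := Nat.cast_nonneg _
      have h5 : (0 : ℝ) ≤ s := Nat.cast_nonneg _
      linarith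
  have hgw : ∀ i, 0 ≤ gw p i := by
    intro i
    unfold gw gam
    split_ifs
    · exact le_rfl
    · positivity
    · norm_num
  have hpos : ∀ v ∈ K, (0 : ℝ) ≤ (((p + 3) * a + r : ℕ) : ℝ) - (nb G univ v).card
      + sw G p (nb G univ v) (K.erase v) := by
    intro v _
    have h1 : ((nb G univ v).card : ℝ) ≤ (((p + 3) * a + r : ℕ) : ℝ) := by
      exact_mod_cast hdeg v
    have h2 : 0 ≤ sw G p (nb G univ v) (K.erase v) := sum_nonneg (fun z _ => hgw _)
    linarith
  have h1 := min_sum_le K (r : ℝ) _ (Nat.cast_nonneg r) hpos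
  refine le_trans ?_ h1
  rw [hT]
  exact le_min le_rfl hTr

end Pool.KQ
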